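import Pool.Agent.Helper52.KP.StF

/-! Project KP, module POG: entire functions of polynomial growth are polynomials. -/

set_option autoImplicit false

namespace Pool.Agent.Helper25.KP

open Polynomial in
private lemma pog_one (f : ℂ → ℂ) (hf : Differentiable ℂ f) (B : ℝ) (N : ℕ) (hB : 0 ≤ B)
    (hb : ∀ z, ‖f z‖ ≤ B * (1 + ‖z‖) ^ N) :
    ∃ p : Polynomial ℂ, p.degree < (N + 1 : ℕ) ∧ ∀ z, f z = p.eval z := by
  have hz : ∀ n, N < n → iteratedDeriv n f 0 = 0 := by
    intro n hn
    rw [← norm_eq_zero]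
    refine le_antisymm ?_ (norm_nonneg _)
    refine le_of_forall_pos_le_add fun ε hε => ?_
    rw [zero_add]
    set A : ℝ := n.factorial * (B * 2 ^ N) with hA
    have hA0 : 0 ≤ A := by positivity
    set R : ℝ := max 1 (A / ε) with hR
    have hR1 : 1 ≤ R := le_max_left _ _
    have hR0 : 0 < R := by linarith
    have h1 := Complex.norm_iteratedDeriv_le_of_forall_mem_sphere_norm_le (c := 0)
      (C := B * (1 + R) ^ N) n hR0 hf.diffContOnCl (fun z hz => by
        have : ‖z‖ = R := by simpa using hz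
        rw [← this]
        exact hb z)
    refine h1.trans ?_
    rw [div_le_iff₀ (by positivity)]
    have h2 : (1 + R) ^ N ≤ 2 ^ N * R ^ N := by
      rw [← mul_pow]
      exact pow_le_pow_left₀ (by linarith) (by linarith) N
    have h3 : R ^ N * R ≤ R ^ n := by
      rw [← pow_succ]
      exact pow_le_pow_right₀ hR1 hn
    have h4 : A ≤ ε * R := by
      have : A / ε ≤ R := le_max_right _ _
      rw [div_le_iff₀ hε] at this
      linarith
    have hRN : 0 ≤ R ^ N := by positivity
    calc (n.factorial : ℝ) * (B * (1 + R) ^ N)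
        ≤ n.factorial * (B * (2 ^ N * R ^ N)) := by gcongr
      _ = A * R ^ N := by rw [hA]; ring
      _ ≤ (ε * R) * R ^ N := by gcongr
      _ = ε * (R ^ N * R) := by ring
      _ ≤ ε * R ^ n := by gcongr
  refine ⟨∑ n ∈ Finset.range (N + 1), Polynomial.C ((n.factorial : ℂ)⁻¹ * iteratedDeriv n f 0) *
    Polynomial.X ^ n, ?_, ?_⟩
  · rw [Polynomial.degree_lt_iff_coeff_zero]
    intro m hm
    rw [Polynomial.finsetSum_coeff]
    refine Finset.sum_eq_zero fun n hn => ?_
    rw [Finset.mem_range] at hn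
    rw [Polynomial.coeff_C_mul_X_pow, if_neg]
    omega
  · intro z
    have h1 := Complex.taylorSeries_eq_of_entire' 0 z hf
    rw [← h1, tsum_eq_sum (s := Finset.range (N + 1))]
    · rw [Polynomial.eval_finsetSum]
      refine Finset.sum_congr rfl fun n _ => ?_
      simp
    · intro n hn
      rw [Finset.mem_range, not_lt] at hn
      rw [hz n hn]
      simp

private lemma pog_main : ∀ (m : ℕ) (F : (Fin m → ℂ) → ℂ), Differentiable ℂ F →
  (∃ (B : ℝ) (N : ℕ), ∀ z, ‖F z‖ ≤ B * (1 + ‖z‖) ^ N) →
  ∃ P : MvPolynomial (Fin m) ℂ, ∀ z, F z = MvPolynomial.eval z P := by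
  intro m
  induction m with
  | zero =>
    intro F _ _
    refine ⟨MvPolynomial.C (F 0), fun z => ?_⟩
    rw [MvPolynomial.eval_C, Subsingleton.elim z 0]
  | succ m ih =>
    intro F hF hbd
    obtain ⟨B, N, hb⟩ := hbd
    have hB : 0 ≤ B := by
      have h1 := (norm_nonneg _).trans (hb 0)
      simpa using h1
    -- the values at the nodes are polynomials
    have hcons : ∀ (ζ : ℂ) (z : Fin m → ℂ), ‖(Fin.cons ζ z : Fin (m+1) → ℂ)‖ ≤ ‖ζ‖ + ‖z‖ := by
      intro ζ z
      rw [pi_norm_le_iff_of_nonneg (by positivity)]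
      intro i
      refine Fin.cases ?_ (fun j => ?_) i
      · simp
      · rw [Fin.cons_succ]
        exact (norm_le_pi_norm z j).trans (by linarith [norm_nonneg ζ])
    have hdc : ∀ ζ : ℂ, Differentiable ℂ (fun z : Fin m → ℂ => (Fin.cons ζ z : Fin (m+1) → ℂ)) := by
      intro ζ
      rw [differentiable_pi]
      intro i
      refine Fin.cases ?_ (fun j => ?_) i
      · simp
      · simpa using differentiable_apply j
    have hdc' : ∀ z : Fin m → ℂ, Differentiable ℂ (fun ζ : ℂ => (Fin.cons ζ z : Fin (m+1) → ℂ)) := by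
      intro z
      rw [differentiable_pi]
      intro i
      refine Fin.cases ?_ (fun j => ?_) i
      · simp
      · simp
    have hnode : ∀ k : ℕ, ∃ P : MvPolynomial (Fin m) ℂ, ∀ z : Fin m → ℂ,
        F (Fin.cons (k : ℂ) z) = MvPolynomial.eval z P := by
      intro k
      refine ih (fun z => F (Fin.cons (k : ℂ) z)) (hF.comp (hdc k)) ⟨B * (1 + k) ^ N, N, ?_⟩
      intro z
      refine (hb _).trans ?_
      have h1 := hcons (k : ℂ) z
      rw [Complex.norm_natCast] at h1
      have hz := norm_nonneg z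
      have hk : (0:ℝ) ≤ k := Nat.cast_nonneg k
      calc B * (1 + ‖(Fin.cons (k : ℂ) z : Fin (m+1) → ℂ)‖) ^ N
          ≤ B * ((1 + k) * (1 + ‖z‖)) ^ N := by
            gcongr
            nlinarith [mul_nonneg hk hz]
        _ = B * (1 + k) ^ N * (1 + ‖z‖) ^ N := by rw [mul_pow]; ring
    choose P hP using hnode
    refine ⟨∑ k ∈ Finset.range (N + 1), MvPolynomial.rename Fin.succ (P k) *
      Polynomial.aeval (MvPolynomial.X 0 : MvPolynomial (Fin (m+1)) ℂ)
        (Lagrange.basis (Finset.range (N + 1)) (fun k : ℕ => (k : ℂ)) k), ?_⟩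
    intro z
    obtain ⟨p, hp1, hp2⟩ := pog_one (fun ζ => F (Fin.cons ζ (Fin.tail z))) (hF.comp (hdc' _))
      (B * (1 + ‖Fin.tail z‖) ^ N) N (by positivity) (by
        intro ζ
        refine (hb _).trans ?_
        have h1 := hcons ζ (Fin.tail z)
        have hz := norm_nonneg (Fin.tail z)
        have hk := norm_nonneg ζ
        calc B * (1 + ‖(Fin.cons ζ (Fin.tail z) : Fin (m+1) → ℂ)‖) ^ N
            ≤ B * ((1 + ‖Fin.tail z‖) * (1 + ‖ζ‖)) ^ N := by
              gcongr
              nlinarith [mul_nonneg hk hz]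
          _ = B * (1 + ‖Fin.tail z‖) ^ N * (1 + ‖ζ‖) ^ N := by rw [mul_pow]; ring)
    have hinj : Set.InjOn (fun k : ℕ => (k : ℂ)) (Finset.range (N + 1) : Set ℕ) := by
      intro a _ b _ hab
      exact Nat.cast_injective hab
    have hint := Lagrange.eq_interpolate (s := Finset.range (N + 1)) hinj (f := p)
      (by rw [Finset.card_range]; exact hp1)
    have hz0 : F z = p.eval (z 0) := by
      rw [← hp2 (z 0)]
      congr 1
      exact (Fin.cons_self_tail z).symm
    rw [hz0, hint, Lagrange.interpolate_apply, Polynomial.eval_finsetSum, map_sum]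
    refine Finset.sum_congr rfl fun k _ => ?_
    rw [Polynomial.eval_mul, Polynomial.eval_C, map_mul, MvPolynomial.eval_rename, ← hp2]
    congr 1
    · rw [hP k (Fin.tail z)]
      rfl
    · rw [← MvPolynomial.coe_aeval_eq_eval]
      simp only [RingHom.coe_coe]
      rw [← Polynomial.aeval_algHom_apply]
      simp [Polynomial.aeval_def, Polynomial.eval₂_eq_eval_map]

theorem hPOG : Pool.Agent.Helper52.KP.StPOG := pog_main

end Pool.Agent.Helper25.KP
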